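import Pool.Agent.Helper35.SH.Eb

/-!
PROJECT ALLQ, block E1: small linear algebra of polarised complex structures
(non-degeneracy, the space of antiholomorphic vectors is its own orthogonal space).
-/

set_option autoImplicit false

namespace Pool.Agent.Helper72.SH

open Finset Complex Pool.Agent.Helper49.SH Pool.Agent.Helper35.SH

variable {ι : Type} [Fintype ι]

theorem Eb_zero_left (E : ι → ι → ℚ) (w : ι → ℂ) : Eb E 0 w = 0 := by
  simp [Eb]

theorem Eb_zero_right (E : ι → ι → ℚ) (w : ι → ℂ) : Eb E w 0 = 0 := by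
  simp [Eb]

omit [Fintype ι] in
theorem cj_zero : cj (0 : ι → ℂ) = 0 := by
  funext i
  simp [cj]

theorem cj_mem_Nc {N : Submodule ℂ (ι → ℂ)} {e : ι → ℂ} : cj e ∈ Nc N ↔ e ∈ N := by
  rw [mem_Nc, cj_cj]

omit [Fintype ι] in
theorem cj_rv (t : ι → ℚ) : cj (rv t) = rv t := by
  funext i
  simp [cj, rv]

omit [Fintype ι] in
theorem cj_zv (l : ι → ℤ) : cj (zv l) = zv l := by
  funext i
  simp [cj, zv]

/-- the holomorphic vectors are isotropic -/
theorem iso_Nc {E : ι → ι → ℚ} {N : Submodule ℂ (ι → ℂ)} (hP : Pol E N) {e e' : ι → ℂ}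
    (he : e ∈ Nc N) (he' : e' ∈ Nc N) : Eb E e e' = 0 := by
  have h1 := Eb_cj E (cj e) (cj e')
  rw [cj_cj, cj_cj, hP.iso _ he _ he', map_zero] at h1
  exact h1

theorem Nc_Nc (N : Submodule ℂ (ι → ℂ)) : Nc (Nc N) = N := by
  ext e
  rw [mem_Nc, cj_mem_Nc]

/-- every vector is the sum of an antiholomorphic and a holomorphic one -/
theorem decomp {E : ι → ι → ℚ} {N : Submodule ℂ (ι → ℂ)} (hP : Pol E N) (v : ι → ℂ) :
    ∃ a ∈ N, ∃ b ∈ Nc N, v = a + b := by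
  have h1 : v ∈ N ⊔ Nc N := by
    rw [(isCompl hP).sup_eq_top]
    exact Submodule.mem_top
  obtain ⟨a, ha, b, hb, h2⟩ := Submodule.mem_sup.1 h1
  exact ⟨a, ha, b, hb, h2.symm⟩

/-- `N` is its own orthogonal space -/
theorem perp {E : ι → ι → ℚ} {N : Submodule ℂ (ι → ℂ)} (hP : Pol E N) {v : ι → ℂ}
    (h : ∀ e ∈ N, Eb E e v = 0) : v ∈ N := by
  obtain ⟨a, ha, b, hb, hv⟩ := decomp hP v
  have h1 := h (cj b) hb
  rw [hv, Eb_add_right, hP.iso _ hb _ ha, zero_add] at h1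
  have h2 : cj b = 0 := by
    by_contra h0
    have h3 := hP.pos (cj b) hb h0
    rw [cj_cj, h1, mul_zero, neg_zero, zero_re] at h3
    exact lt_irrefl _ h3
  have h4 : b = 0 := by
    rw [← cj_cj b, h2, cj_zero]
  rw [hv, h4, add_zero]
  exact ha

theorem perp_iff {E : ι → ι → ℚ} {N : Submodule ℂ (ι → ℂ)} (hP : Pol E N) {v : ι → ℂ} :
    (∀ e ∈ N, Eb E e v = 0) ↔ v ∈ N :=
  ⟨perp hP, fun hv e he => hP.iso e he v hv⟩

/-- `Nc N` is its own orthogonal space -/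
theorem perp_Nc {E : ι → ι → ℚ} {N : Submodule ℂ (ι → ℂ)} (hP : Pol E N) {v : ι → ℂ}
    (h : ∀ e ∈ Nc N, Eb E e v = 0) : v ∈ Nc N := by
  apply perp hP
  intro e he
  have h1 := h (cj e) (cj_mem_Nc.2 he)
  have h2 := Eb_cj E (cj e) v
  rw [h1, map_zero, cj_cj] at h2
  exact h2

/-- the form is not degenerate -/
theorem nondeg {E : ι → ι → ℚ} {N : Submodule ℂ (ι → ℂ)} (hP : Pol E N) {v : ι → ℂ}
    (h : ∀ w, Eb E w v = 0) : v = 0 :=
  inter hP (perp hP fun e _ => h e) (perp_Nc hP fun e _ => h e)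

theorem nondeg' {E : ι → ι → ℚ} {N : Submodule ℂ (ι → ℂ)} (hP : Pol E N) {v : ι → ℂ}
    (h : ∀ w, Eb E v w = 0) : v = 0 :=
  nondeg hP fun w => by rw [Eb_alt hP.alt, h w, neg_zero]

/-- an inclusion of polarised structures for the same form is an equality -/
theorem N_eq_of_le {E : ι → ι → ℚ} {N N' : Submodule ℂ (ι → ℂ)} (hP : Pol E N) (hP' : Pol E N')
    (h : N ≤ N') : N = N' :=
  Submodule.eq_of_le_of_finrank_eq h (by have h1 := hP.dim; have h2 := hP'.dim; omega)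

/-- positivity on the holomorphic vectors -/
theorem pos_Nc {E : ι → ι → ℚ} {N : Submodule ℂ (ι → ℂ)} (hP : Pol E N) {e : ι → ℂ}
    (he : e ∈ Nc N) (h0 : e ≠ 0) : 0 < (I * Eb E e (cj e)).re := by
  have h1 : cj e ≠ 0 := by
    intro h2
    apply h0
    rw [← cj_cj e, h2, cj_zero]
  have h3 := hP.pos (cj e) he h1
  rw [cj_cj, Eb_alt hP.alt, mul_neg, neg_neg] at h3
  exact h3

/-- `E (e, conj e)` is purely imaginary -/
theorem Eb_cj_re {E : ι → ι → ℚ} (hE : ∀ i j, E i j = -E j i) (e : ι → ℂ) :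
    (Eb E e (cj e)).re = 0 := by
  have h1 := Eb_cj E e (cj e)
  rw [cj_cj, Eb_alt hE] at h1
  have h2 := congrArg Complex.re h1
  rw [neg_re, conj_re] at h2
  linarith

theorem ne_zero_cj {E : ι → ι → ℚ} {N : Submodule ℂ (ι → ℂ)} (hP : Pol E N) {e : ι → ℂ}
    (he : e ∈ N) (h0 : e ≠ 0) : Eb E e (cj e) ≠ 0 := by
  intro h1
  have h3 := hP.pos e he h0
  rw [h1, mul_zero, neg_zero, zero_re] at h3
  exact lt_irrefl _ h3

end Pool.Agent.Helper72.SH
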